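import Mathlib
import Pool.Agent.Y671.GV.Gen

/-!
# Many incompatible `κ`-complete filters without the Galvin property

If `κ` is regular and `2 ^< κ = κ`, there is a `κ`-independent family of `2 ^ κ` subsets of `κ`
(Hausdorff). Starting with a `κ`-complete filter `G` with `κ` pairwise disjoint positive sets we
obtain from it `2 ^ (2 ^ κ)` pairwise incompatible `κ`-complete filters `⊇ G` which still have `κ`
pairwise disjoint positive sets, and the construction of `Pool.Agent.Y671.GV.gmain` applies to each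
of them.
-/

set_option autoImplicit false

namespace Pool.Agent.V11182.Galvin

open Cardinal Set Pool.Agent.H348R6.GV Pool.Agent.Y671.GV

universe u

variable {κ : Cardinal.{u}}

/-- The index set of the independent family. -/
def W (κ : Cardinal.{u}) : Type u :=
  Σ b : κ.ord.ToType, Σ c : κ.ord.ToType, (Iic c → Set (Iic b))

/-- `w` is an element of the `B`-th set of the independent family. -/
def Xr (B : Set κ.ord.ToType) (w : W κ) : Prop :=
  ∃ i, w.2.2 i = {x : Iic w.1 | (x : κ.ord.ToType) ∈ B}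

theorem mk_W_le (hκ : κ.IsRegular) (hp : (2 : Cardinal.{u}) ^< κ = κ) : #(W κ) ≤ κ := by
  have h1 : ∀ b c : κ.ord.ToType, #(Iic c → Set (Iic b)) ≤ κ := by
    intro b c
    have e : #(Iic c → Set (Iic b)) = (2 : Cardinal.{u}) ^ (#(Iic b) * #(Iic c)) := by
      rw [power_mul]
      simp
    rw [e]
    have hlt : #(Iic b) * #(Iic c) < κ :=
      mul_lt_of_lt hκ.aleph0_le (mk_Iic_lt hκ b) (mk_Iic_lt hκ c)
    exact (le_powerlt 2 hlt).trans hp.le
  have hL : #(κ.ord.ToType) = κ := by rw [Cardinal.mk_toType, card_ord]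
  have h2 : ∀ b : κ.ord.ToType, #(Σ c : κ.ord.ToType, (Iic c → Set (Iic b))) ≤ κ := by
    intro b
    rw [mk_sigma]
    refine (sum_le_sum _ (fun _ => κ) (fun c => h1 b c)).trans ?_
    rw [sum_const', hL, mul_eq_self hκ.aleph0_le]
  unfold W
  rw [mk_sigma]
  refine (sum_le_sum _ (fun _ => κ) (fun b => h2 b)).trans ?_
  rw [sum_const', hL, mul_eq_self hκ.aleph0_le]

/-- a set of fewer than `κ` elements is empty or indexed by an initial segment -/
theorem exists_enum {X : Type u} (J : Set X) (hJ : #J < κ) (hne : J.Nonempty) :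
    ∃ (c : κ.ord.ToType) (g : Iic c → X), range g = J := by
  classical
  have h1 : (#J).ord < Ordinal.type (α := κ.ord.ToType) (· < ·) := by
    rw [Ordinal.type_toType]
    exact Cardinal.ord_lt_ord.2 hJ
  obtain ⟨c, hc⟩ := Ordinal.typein_surj (α := κ.ord.ToType) (· < ·) h1
  have h2 : #(Iio c) = #J := by
    have h3 := congrArg Ordinal.card hc
    rw [card_ord] at h3
    rw [← h3]
    rfl
  have h4 : #J ≤ #(Iic c) := by
    rw [← h2]
    exact mk_le_mk_of_subset Iio_subset_Iic_self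
  obtain ⟨e⟩ := h4
  obtain ⟨x0, hx0⟩ := hne
  refine ⟨c, fun i => if h : ∃ j : J, e j = i then (h.choose : J).1 else x0, ?_⟩
  ext x
  constructor
  · rintro ⟨i, rfl⟩
    by_cases h : ∃ j : J, e j = i
    · simp only [h, dif_pos]
      exact h.choose.2
    · simp only [h, dif_neg, not_false_eq_true]
      exact hx0
  · intro hx
    have h : ∃ j : J, e j = e ⟨x, hx⟩ := ⟨⟨x, hx⟩, rfl⟩
    refine ⟨e ⟨x, hx⟩, ?_⟩
    simp only [h, dif_pos]
    have h5 := e.injective h.choose_spec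
    rw [h5]

/-- **Independence.** -/
theorem indep (hκ : κ.IsRegular) (J : Set (Set κ.ord.ToType)) (hJ : #J < κ)
    (E : Set (Set κ.ord.ToType)) : ∃ w : W κ, ∀ B ∈ J, (Xr B w ↔ B ∈ E) := by
  classical
  have hne := nonempty_toType hκ
  -- separate the members of `J`
  have hsep : ∀ q : J × J, ∃ x : κ.ord.ToType, q.1 ≠ q.2 → ¬ (x ∈ q.1.1 ↔ x ∈ q.2.1) := by
    intro q
    by_cases h : q.1 = q.2
    · obtain ⟨x⟩ := hne
      exact ⟨x, fun h' => absurd h h'⟩
    · by_contra hcon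
      push Not at hcon
      refine h (Subtype.ext (Set.ext fun x => ?_))
      exact (hcon x).2
  choose s hs using hsep
  have hJJ : #(J × J) < κ := by
    simp only [mk_prod, lift_id]
    exact mul_lt_of_lt hκ.aleph0_le hJ hJ
  obtain ⟨b, hb⟩ := bdd_of_lt hκ s hJJ
  -- the traces of the members of `J ∩ E`
  have hbot : ∃ b' : κ.ord.ToType, b ≤ b' := ⟨b, le_rfl⟩
  by_cases hJE : (J ∩ E).Nonempty
  · have hJE2 : #(J ∩ E : Set (Set κ.ord.ToType)) < κ :=
      (mk_le_mk_of_subset inter_subset_left).trans_lt hJ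
    obtain ⟨c, g, hg⟩ := exists_enum (J ∩ E) hJE2 hJE
    refine ⟨⟨b, c, fun i => {x : Iic b | (x : κ.ord.ToType) ∈ g i}⟩, fun B hB => ?_⟩
    constructor
    · rintro ⟨i, hi⟩
      have hi' : {x : Iic b | (x : κ.ord.ToType) ∈ g i} = {x : Iic b | (x : κ.ord.ToType) ∈ B} := hi
      have hgi : g i ∈ J ∩ E := by rw [← hg]; exact ⟨i, rfl⟩
      have heq : g i = B := by
        by_contra hne2
        have h1 := hs (⟨g i, hgi.1⟩, ⟨B, hB⟩) (fun h => hne2 (congrArg Subtype.val h))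
        apply h1
        have h2 := Set.ext_iff.1 hi' ⟨s (⟨g i, hgi.1⟩, ⟨B, hB⟩), (hb _).le⟩
        exact h2
      rw [← heq]
      exact hgi.2
    · intro hBE
      have : B ∈ range g := by rw [hg]; exact ⟨hB, hBE⟩
      obtain ⟨i, hi⟩ := this
      refine ⟨i, ?_⟩
      change {x : Iic b | (x : κ.ord.ToType) ∈ g i} = {x : Iic b | (x : κ.ord.ToType) ∈ B}
      rw [hi]
  · -- no member of `J` is in `E`: separate them also from one more set
    rw [Set.not_nonempty_iff_eq_empty] at hJE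
    have hex : ∃ D : Set κ.ord.ToType, D ∉ J := by
      by_contra hcon
      push Not at hcon
      have h1 : #(Set κ.ord.ToType) ≤ #J := by
        have : (J : Set (Set κ.ord.ToType)) = Set.univ := Set.eq_univ_of_forall hcon
        rw [this, mk_univ]
      rw [mk_set, Cardinal.mk_toType, card_ord] at h1
      exact absurd ((cantor κ).trans_le (h1.trans hJ.le)) (lt_irrefl _)
    obtain ⟨D, hD⟩ := hex
    have hsep2 : ∀ q : J, ∃ x : κ.ord.ToType, ¬ (x ∈ q.1 ↔ x ∈ D) := by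
      intro q
      by_contra hcon
      push Not at hcon
      refine hD ?_
      have : D = q.1 := Set.ext fun x => (hcon x).symm
      rw [this]
      exact q.2
    choose s2 hs2 using hsep2
    obtain ⟨b2, hb2⟩ := bdd_of_lt hκ s2 hJ
    refine ⟨⟨b2, b2, fun _ => {x : Iic b2 | (x : κ.ord.ToType) ∈ D}⟩, fun B hB => ?_⟩
    constructor
    · rintro ⟨i, hi⟩
      have hi' : {x : Iic b2 | (x : κ.ord.ToType) ∈ D} = {x : Iic b2 | (x : κ.ord.ToType) ∈ B} := hi
      exfalso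
      apply hs2 ⟨B, hB⟩
      have h2 := Set.ext_iff.1 hi' ⟨s2 ⟨B, hB⟩, (hb2 _).le⟩
      exact h2.symm
    · intro hBE
      have : B ∈ J ∩ E := ⟨hB, hBE⟩
      rw [hJE] at this
      exact absurd this (by simp)

/-- The filter given by `G` and the sets of the independent family with index in `E` and the
complements of the others. -/
def efil (hκ : κ.IsRegular) (G : Filter κ.ord.ToType) (Q : κ.ord.ToType × W κ → Set κ.ord.ToType)
    (E : Set (Set κ.ord.ToType)) : Filter κ.ord.ToType where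
  sets := {X | ∃ J : Set (Set κ.ord.ToType), #J < κ ∧
    ∀ p : κ.ord.ToType × W κ, (∀ B ∈ J, (Xr B p.2 ↔ B ∈ E)) → X ∪ (Q p)ᶜ ∈ G}
  univ_sets := ⟨∅, by simpa using hκ.pos, fun p _ => by simp⟩
  sets_of_superset := by
    rintro X Y ⟨J, hJ, hX⟩ hXY
    exact ⟨J, hJ, fun p hp => Filter.mem_of_superset (hX p hp) (union_subset_union_left _ hXY)⟩
  inter_sets := by
    rintro X Y ⟨J, hJ, hX⟩ ⟨K, hK, hY⟩
    refine ⟨J ∪ K, (mk_union_le J K).trans_lt (add_lt_of_lt hκ.aleph0_le hJ hK), fun p hp => ?_⟩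
    have h1 := hX p (fun i hi => hp i (Or.inl hi))
    have h2 := hY p (fun i hi => hp i (Or.inr hi))
    refine Filter.mem_of_superset (Filter.inter_mem h1 h2) ?_
    rintro a ⟨ha1, ha2⟩
    rcases ha1 with h | h
    · rcases ha2 with h' | h'
      · exact Or.inl ⟨h, h'⟩
      · exact Or.inr h'
    · exact Or.inr h

theorem mem_efil (hκ : κ.IsRegular) (G : Filter κ.ord.ToType)
    (Q : κ.ord.ToType × W κ → Set κ.ord.ToType) (E : Set (Set κ.ord.ToType))
    (X : Set κ.ord.ToType) : X ∈ efil hκ G Q E ↔ ∃ J : Set (Set κ.ord.ToType), #J < κ ∧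
    ∀ p : κ.ord.ToType × W κ, (∀ B ∈ J, (Xr B p.2 ↔ B ∈ E)) → X ∪ (Q p)ᶜ ∈ G := Iff.rfl

/-- **Main construction.** -/
theorem many (hκ : κ.IsRegular) (hp : (2 : Cardinal.{u}) ^< κ = κ) (G : Filter κ.ord.ToType)
    (hG : ∀ S : Set (Set κ.ord.ToType), #S < κ → (∀ s ∈ S, s ∈ G) → ⋂₀ S ∈ G)
    (P : κ.ord.ToType → Set κ.ord.ToType) (hP : ∀ a, (P a)ᶜ ∉ G)
    (hPd : ∀ a b, a ≠ b → Disjoint (P a) (P b)) {Λ : Type u}
    (h : Λ → κ.ord.ToType → κ.ord.ToType)
    (hh : ∀ i j, i ≠ j → ∃ b, ∀ a, b ≤ a → h i a ≠ h j a) :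
    ∃ Φ : Set (Set κ.ord.ToType) → Filter κ.ord.ToType,
      (∀ E, Φ E ≤ G ∧ (Φ E).NeBot ∧
        (∀ S : Set (Set κ.ord.ToType), #S < κ → (∀ s ∈ S, s ∈ Φ E) → ⋂₀ S ∈ Φ E) ∧
        ∃ A : Λ → Set κ.ord.ToType, (∀ i, A i ∈ Φ E) ∧
          ∀ I : Set Λ, κ ≤ #I → ⋂ i ∈ I, A i ∉ Φ E) ∧
      ∀ E E', E ≠ E' → ∃ Y, Y ∈ Φ E ∧ Yᶜ ∈ Φ E' := by
  classical
  have hne := nonempty_toType hκ
  have hprod : #(κ.ord.ToType × W κ) ≤ #(κ.ord.ToType) := by
    have hL : #(κ.ord.ToType) = κ := by rw [Cardinal.mk_toType, card_ord]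
    rw [mk_prod, lift_id, lift_id, hL]
    exact (mul_le_mul_right (mk_W_le hκ hp) κ).trans (mul_eq_self hκ.aleph0_le).le
  obtain ⟨e⟩ := hprod
  set Q : κ.ord.ToType × W κ → Set κ.ord.ToType := fun p => P (e p) with hQdef
  have hQ : ∀ p, (Q p)ᶜ ∉ G := fun p => hP _
  have hQd : ∀ p q, p ≠ q → Disjoint (Q p) (Q q) :=
    fun p q hpq => hPd _ _ fun h => hpq (e.injective h)
  have hle : ∀ E, efil hκ G Q E ≤ G := by
    intro E C hC
    refine (mem_efil _ _ _ _ _).2 ⟨∅, by simpa using hκ.pos, fun p _ => ?_⟩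
    exact Filter.mem_of_superset hC subset_union_left
  have hcomp : ∀ E, ∀ S : Set (Set κ.ord.ToType), #S < κ → (∀ s ∈ S, s ∈ efil hκ G Q E) →
      ⋂₀ S ∈ efil hκ G Q E := by
    intro E S hS hSF
    choose! J hJ hJ2 using fun s (hs : s ∈ S) => (mem_efil _ _ _ _ _).1 (hSF s hs)
    refine (mem_efil _ _ _ _ _).2 ⟨⋃ s : S, J s.1, ?_, fun p hp => ?_⟩
    · exact (card_iUnion_lt_iff_forall_of_isRegular hκ hS).2 (fun s => hJ s.1 s.2)
    · have h1 : ∀ s : S, s.1 ∪ (Q p)ᶜ ∈ G := fun s =>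
        hJ2 s.1 s.2 p (fun i hi => hp i (mem_iUnion.2 ⟨s, hi⟩))
      have h2 : ⋂₀ (range fun s : S => s.1 ∪ (Q p)ᶜ) ∈ G := by
        refine hG _ (mk_range_le.trans_lt hS) ?_
        rintro _ ⟨s, rfl⟩
        exact h1 s
      refine Filter.mem_of_superset h2 ?_
      intro a ha
      by_cases hap : a ∈ Q p
      · left
        intro s hs
        have h3 := ha (s ∪ (Q p)ᶜ) ⟨⟨s, hs⟩, rfl⟩
        rcases h3 with h3 | h3
        · exact h3
        · exact absurd hap h3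
      · exact Or.inr hap
  -- positive sets
  have hpos : ∀ E (a : κ.ord.ToType), (⋃ w : W κ, Q (a, w))ᶜ ∉ efil hκ G Q E := by
    intro E a hmem
    obtain ⟨J, hJ, hJ2⟩ := (mem_efil _ _ _ _ _).1 hmem
    obtain ⟨w, hw⟩ := indep hκ J hJ E
    refine hQ (a, w) (Filter.mem_of_superset (hJ2 (a, w) hw) ?_)
    rintro x (hx | hx)
    · intro hx2
      exact hx (mem_iUnion.2 ⟨w, hx2⟩)
    · exact hx
  have hdisj : ∀ a b : κ.ord.ToType, a ≠ b →
      Disjoint (⋃ w : W κ, Q (a, w)) (⋃ w : W κ, Q (b, w)) := by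
    intro a b hab
    rw [Set.disjoint_left]
    intro x hx1 hx2
    obtain ⟨w1, hw1⟩ := mem_iUnion.1 hx1
    obtain ⟨w2, hw2⟩ := mem_iUnion.1 hx2
    exact Set.disjoint_left.1 (hQd (a, w1) (b, w2) (fun h => hab (congrArg Prod.fst h))) hw1 hw2
  -- the independent sets
  set Y : Set κ.ord.ToType → Set κ.ord.ToType :=
    fun B => ⋃ p : {p : κ.ord.ToType × W κ // Xr B p.2}, Q p.1 with hYdef
  have hY1 : ∀ E, ∀ B ∈ E, Y B ∈ efil hκ G Q E := by
    intro E B hB
    refine (mem_efil _ _ _ _ _).2 ⟨{B}, ?_, fun p hp => ?_⟩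
    · simpa using one_lt_aleph0.trans_le hκ.aleph0_le
    · have hX : Xr B p.2 := (hp B rfl).2 hB
      have huniv : Y B ∪ (Q p)ᶜ = Set.univ := by
        rw [eq_univ_iff_forall]
        intro x
        by_cases hx : x ∈ Q p
        · exact Or.inl (mem_iUnion.2 ⟨⟨p, hX⟩, hx⟩)
        · exact Or.inr hx
      rw [huniv]
      exact Filter.univ_mem
  have hY2 : ∀ E, ∀ B, B ∉ E → (Y B)ᶜ ∈ efil hκ G Q E := by
    intro E B hB
    refine (mem_efil _ _ _ _ _).2 ⟨{B}, ?_, fun p hp => ?_⟩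
    · simpa using one_lt_aleph0.trans_le hκ.aleph0_le
    · have hX : ¬ Xr B p.2 := fun h => hB ((hp B rfl).1 h)
      have huniv : (Y B)ᶜ ∪ (Q p)ᶜ = Set.univ := by
        rw [eq_univ_iff_forall]
        intro x
        by_cases hx : x ∈ Q p
        · left
          intro hx2
          obtain ⟨q, hq⟩ := mem_iUnion.1 hx2
          have hne2 : p ≠ q.1 := by
            rintro rfl
            exact hX q.2
          exact Set.disjoint_left.1 (hQd _ _ hne2) hx hq
        · exact Or.inr hx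
      rw [huniv]
      exact Filter.univ_mem
  have hmain : ∀ E, ∃ F : Filter κ.ord.ToType, F ≤ efil hκ G Q E ∧ F.NeBot ∧
      (∀ S : Set (Set κ.ord.ToType), #S < κ → (∀ s ∈ S, s ∈ F) → ⋂₀ S ∈ F) ∧
      ∃ A : Λ → Set κ.ord.ToType, (∀ i, A i ∈ F) ∧
        ∀ I : Set Λ, κ ≤ #I → ⋂ i ∈ I, A i ∉ F := fun E =>
    gmain hκ (efil hκ G Q E) (hcomp E) (fun a => ⋃ w : W κ, Q (a, w)) (hpos E) hdisj h hh
  choose Φ hΦ using hmain
  refine ⟨Φ, fun E => ⟨(hΦ E).1.trans (hle E), (hΦ E).2⟩, fun E E' hEE => ?_⟩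
  have hex : ∃ B, ¬ (B ∈ E ↔ B ∈ E') := by
    by_contra hcon
    push Not at hcon
    exact hEE (Set.ext hcon)
  obtain ⟨B, hB⟩ := hex
  by_cases h1 : B ∈ E
  · have h2 : B ∉ E' := fun h2 => hB ⟨fun _ => h2, fun _ => h1⟩
    exact ⟨Y B, (hΦ E).1 (hY1 E B h1), (hΦ E').1 (hY2 E' B h2)⟩
  · have h2 : B ∈ E' := by
      by_contra h2
      exact hB ⟨fun h => absurd h h1, fun h => absurd h h2⟩
    refine ⟨(Y B)ᶜ, (hΦ E).1 (hY2 E B h1), ?_⟩
    rw [compl_compl]
    exact (hΦ E').1 (hY1 E' B h2)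

/-- the generalized continuum hypothesis gives `2 ^< κ = κ` for all infinite `κ` -/
theorem powerlt_of_gch (hκ : ℵ₀ ≤ κ)
    (gch : ∀ μ : Cardinal.{u}, ℵ₀ ≤ μ → (2 : Cardinal.{u}) ^ μ = Order.succ μ) :
    (2 : Cardinal.{u}) ^< κ = κ := by
  refine le_antisymm (powerlt_le.2 fun μ hμ => ?_) ?_
  · rcases lt_or_ge μ ℵ₀ with h | h
    · exact (power_lt_aleph0 (natCast_lt_aleph0) h).le.trans hκ
    · rw [gch μ h]
      exact Order.succ_le_of_lt hμ
  · refine le_of_forall_lt fun μ hμ => ?_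
    exact (cantor μ).trans_le (le_powerlt 2 hμ)

end Pool.Agent.V11182.Galvin
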